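import Mathlib
import Pool.Agent.Results.MP_b17c1b_co.AcyclicListGap

/-!
# Acyclic list chromatic index versus acyclic chromatic index: connected graphs of every order

The starting theorem gives one graph `gr` with 36 vertices whose acyclic chromatic index is `3` and
whose acyclic list chromatic index is at least `4`. Here it is shown that every finite graph
containing `gr` as a subgraph has acyclic list chromatic index at least `4`; that there is a
connected graph of maximum degree at most `3` with the same property of every order at least `36`;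
and that every finite graph with acyclic chromatic index at most `3` is a union of components of a
graph with this property.
-/

set_option autoImplicit false

namespace Pool.Agent.Results.MP_b17c1b_co.ConnectedEveryOrder

open SimpleGraph
open Pool.Agent.Results.MP_b17c1b_co.AcyclicListGap

/-! ### Monotonicity -/

section mono

variable {V W : Type} {G : SimpleGraph V} {H : SimpleGraph W}

theorem restrict (f : G →g H) (hf : Function.Injective f) {c : Sym2 W → ℕ}
    (hc : IsAcyclicEdgeColouring H c) : IsAcyclicEdgeColouring G (fun e => c (e.map f)) := by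
  constructor
  · rintro e he g hg hne ⟨v, hve, hvg⟩
    refine hc.1 (e.map f) (f.map_mem_edgeSet he) (g.map f) (f.map_mem_edgeSet hg) ?_ ⟨f v, ?_, ?_⟩
    · exact fun h => hne (Sym2.map.injective hf h)
    · exact Sym2.mem_map.2 ⟨v, hve, rfl⟩
    · exact Sym2.mem_map.2 ⟨v, hvg, rfl⟩
  · intro a b v p hp hall
    refine hc.2 a b (f v) (p.map f) ((Walk.isCycle_map_iff_of_injective hf).2 hp) ?_
    intro e he
    rw [Walk.edges_map, List.mem_map] at he
    obtain ⟨e', he', rfl⟩ := he
    exact hall e' he'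

theorem list_nonempty [Finite W] (H : SimpleGraph W) :
    {k : ℕ | ∀ L : Sym2 W → Finset ℕ, (∀ e ∈ H.edgeSet, (L e).card = k) →
      ∃ c : Sym2 W → ℕ, IsAcyclicEdgeColouring H c ∧ ∀ e ∈ H.edgeSet, c e ∈ L e}.Nonempty := by
  classical
  have := Fintype.ofFinite W
  exact ⟨H.edgeFinset.card, fun L hL => list_large H L hL⟩

theorem chrom_nonempty [Finite W] (H : SimpleGraph W) :
    {k : ℕ | ∃ c : Sym2 W → ℕ, IsAcyclicEdgeColouring H c ∧ ∀ e ∈ H.edgeSet, c e < k}.Nonempty := by
  obtain ⟨k, hk⟩ := list_nonempty H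
  obtain ⟨c, hc, hcL⟩ := hk (fun _ => Finset.range k) (fun _ _ => Finset.card_range k)
  exact ⟨k, c, hc, fun e he => Finset.mem_range.1 (hcL e he)⟩

theorem list_mono [Finite W] (f : G →g H) (hf : Function.Injective f) :
    acyclicListChromaticIndex G ≤ acyclicListChromaticIndex H := by
  classical
  refine le_csInf (list_nonempty H) (fun k hk => Nat.sInf_le ?_)
  intro L hL
  let L' : Sym2 W → Finset ℕ := fun e =>
    if h : ∃ e', e' ∈ G.edgeSet ∧ e'.map f = e then L h.choose else Finset.range k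
  have hL' : ∀ e ∈ H.edgeSet, (L' e).card = k := by
    intro e _
    by_cases h : ∃ e', e' ∈ G.edgeSet ∧ e'.map f = e
    · simp only [L', dif_pos h]
      exact hL _ h.choose_spec.1
    · simp only [L', dif_neg h, Finset.card_range]
  obtain ⟨c, hc, hcL⟩ := hk L' hL'
  refine ⟨fun e => c (e.map f), restrict f hf hc, fun e he => ?_⟩
  have h : ∃ e', e' ∈ G.edgeSet ∧ e'.map f = e.map f := ⟨e, he, rfl⟩
  have key := hcL (e.map f) (f.map_mem_edgeSet he)
  simp only [L', dif_pos h] at key
  have e1 : h.choose = e := Sym2.map.injective hf h.choose_spec.2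
  rw [e1] at key
  exact key

theorem chrom_mono [Finite W] (f : G →g H) (hf : Function.Injective f) :
    acyclicChromaticIndex G ≤ acyclicChromaticIndex H := by
  refine le_csInf (chrom_nonempty H) (fun k hk => Nat.sInf_le ?_)
  obtain ⟨c, hc, hcL⟩ := hk
  exact ⟨fun e => c (e.map f), restrict f hf hc, fun e he => hcL _ (f.map_mem_edgeSet he)⟩

/-- A finite graph containing `gr` and coloured with three colours has the gap. -/
theorem gap_of [Finite W] (f : gr →g H) (hf : Function.Injective f)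
    (hc : ∃ c : Sym2 W → ℕ, IsAcyclicEdgeColouring H c ∧ ∀ e ∈ H.edgeSet, c e < 3) :
    acyclicChromaticIndex H = 3 ∧ 4 ≤ acyclicListChromaticIndex H := by
  refine ⟨le_antisymm (Nat.sInf_le hc) ?_, four_le_acyclicListChromaticIndex_gr.trans
    (list_mono f hf)⟩
  rw [← acyclicChromaticIndex_gr]
  exact chrom_mono f hf

end mono

/-! ### Disjoint unions -/

section glue

variable {V W : Type} {G : SimpleGraph V} {H : SimpleGraph W}

theorem lift_walk (f : G ↪g H) (hcl : ∀ a y, H.Adj (f a) y → ∃ b, f b = y) :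
    ∀ {x y : W} (p : H.Walk x y) (a : V) (hx : f a = x),
      ∃ (b : V) (hy : f b = y) (q : G.Walk a b), (q.map f.toHom).copy hx hy = p := by
  intro x y p
  induction p with
  | nil =>
    intro a hx
    subst hx
    exact ⟨a, rfl, Walk.nil, rfl⟩
  | cons h p ih =>
    intro a hx
    subst hx
    obtain ⟨b, hb⟩ := hcl _ _ h
    subst hb
    obtain ⟨d, hd, q, hq⟩ := ih b rfl
    subst hd
    have hab : G.Adj a b := f.map_adj_iff.1 h
    refine ⟨d, rfl, Walk.cons hab q, ?_⟩
    rw [← hq]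
    rfl

theorem edge_lift (f : G ↪g H) (hcl : ∀ a y, H.Adj (f a) y → ∃ b, f b = y) {e : Sym2 W}
    (he : e ∈ H.edgeSet) {a : V} (ha : f a ∈ e) :
    ∃ e' ∈ G.edgeSet, a ∈ e' ∧ e'.map f = e := by
  obtain ⟨y, rfl⟩ := Sym2.mem_iff_exists.1 ha
  have hadj : H.Adj (f a) y := he
  obtain ⟨b, rfl⟩ := hcl a y hadj
  exact ⟨s(a, b), f.map_adj_iff.1 hadj, by simp, rfl⟩

theorem glue_cycle (f : G ↪g H) (hcl : ∀ a y, H.Adj (f a) y → ∃ b, f b = y) {c : Sym2 W → ℕ}
    (hc : IsAcyclicEdgeColouring G (fun e => c (e.map f))) (a b : ℕ) (v : V)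
    (p : H.Walk (f v) (f v)) (hp : p.IsCycle) : ¬ ∀ e ∈ p.edges, c e = a ∨ c e = b := by
  intro hall
  obtain ⟨w, hw, q, hq⟩ := lift_walk f hcl p v rfl
  have hwv : w = v := f.injective hw
  subst hwv
  have hq' : q.map f.toHom = p := hq
  refine hc.2 a b w q ((Walk.isCycle_map_iff_of_injective (f := f.toHom) f.injective).1
    (by rw [hq']; exact hp)) (fun e he => ?_)
  refine hall (e.map f) ?_
  rw [← hq', Walk.edges_map]
  exact List.mem_map.2 ⟨e, he, rfl⟩

theorem glue_proper (f : G ↪g H) (hcl : ∀ a y, H.Adj (f a) y → ∃ b, f b = y) {c : Sym2 W → ℕ}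
    (hc : IsAcyclicEdgeColouring G (fun e => c (e.map f))) {e g : Sym2 W} (he : e ∈ H.edgeSet)
    (hg : g ∈ H.edgeSet) (hne : e ≠ g) (v : V) (hve : f v ∈ e) (hvg : f v ∈ g) : c e ≠ c g := by
  obtain ⟨e', he', hv', rfl⟩ := edge_lift f hcl he hve
  obtain ⟨g', hg', hv'', rfl⟩ := edge_lift f hcl hg hvg
  exact hc.1 e' he' g' hg' (fun h => hne (by rw [h])) ⟨v, hv', hv''⟩

/-- The colouring of a disjoint union. -/
def sumCol (c₁ : Sym2 V → ℕ) (c₂ : Sym2 W → ℕ) : Sym2 (V ⊕ W) → ℕ :=
  Sym2.lift ⟨fun x y => match x, y with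
    | Sum.inl a, Sum.inl b => c₁ s(a, b)
    | Sum.inr a, Sum.inr b => c₂ s(a, b)
    | _, _ => 0, by
    rintro (a | a) (b | b)
    · show c₁ s(a, b) = c₁ s(b, a)
      rw [Sym2.eq_swap]
    · rfl
    · rfl
    · show c₂ s(a, b) = c₂ s(b, a)
      rw [Sym2.eq_swap]⟩

theorem sumCol_inl (c₁ : Sym2 V → ℕ) (c₂ : Sym2 W → ℕ) (e : Sym2 V) :
    sumCol c₁ c₂ (e.map Sum.inl) = c₁ e := by
  induction e using Sym2.ind with
  | _ a b => rfl

theorem sumCol_inr (c₁ : Sym2 V → ℕ) (c₂ : Sym2 W → ℕ) (e : Sym2 W) :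
    sumCol c₁ c₂ (e.map Sum.inr) = c₂ e := by
  induction e using Sym2.ind with
  | _ a b => rfl

theorem isAcyclic_sum {c₁ : Sym2 V → ℕ} {c₂ : Sym2 W → ℕ} (h₁ : IsAcyclicEdgeColouring G c₁)
    (h₂ : IsAcyclicEdgeColouring H c₂) : IsAcyclicEdgeColouring (G ⊕g H) (sumCol c₁ c₂) := by
  let f₁ : G ↪g (G ⊕g H) := Embedding.sumInl
  let f₂ : H ↪g (G ⊕g H) := Embedding.sumInr
  have cl₁ : ∀ a y, (G ⊕g H).Adj (f₁ a) y → ∃ b, f₁ b = y := by
    rintro a (y | y) h
    · exact ⟨y, rfl⟩
    · exact absurd h (by simp [f₁])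
  have cl₂ : ∀ a y, (G ⊕g H).Adj (f₂ a) y → ∃ b, f₂ b = y := by
    rintro a (y | y) h
    · exact absurd h (by simp [f₂])
    · exact ⟨y, rfl⟩
  have g₁ : IsAcyclicEdgeColouring G (fun e => sumCol c₁ c₂ (e.map f₁)) := by
    have : (fun e => sumCol c₁ c₂ (e.map f₁)) = c₁ := funext (sumCol_inl c₁ c₂)
    rw [this]
    exact h₁
  have g₂ : IsAcyclicEdgeColouring H (fun e => sumCol c₁ c₂ (e.map f₂)) := by
    have : (fun e => sumCol c₁ c₂ (e.map f₂)) = c₂ := funext (sumCol_inr c₁ c₂)
    rw [this]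
    exact h₂
  constructor
  · rintro e he g hg hne ⟨v | v, hve, hvg⟩
    · exact glue_proper f₁ cl₁ g₁ he hg hne v hve hvg
    · exact glue_proper f₂ cl₂ g₂ he hg hne v hve hvg
  · rintro a b (v | v) p hp
    · exact glue_cycle f₁ cl₁ g₁ a b v p hp
    · exact glue_cycle f₂ cl₂ g₂ a b v p hp

theorem sumCol_lt {c₁ : Sym2 V → ℕ} {c₂ : Sym2 W → ℕ} {k : ℕ} (h₁ : ∀ e ∈ G.edgeSet, c₁ e < k)
    (h₂ : ∀ e ∈ H.edgeSet, c₂ e < k) : ∀ e ∈ (G ⊕g H).edgeSet, sumCol c₁ c₂ e < k := by
  intro e
  induction e using Sym2.ind with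
  | _ x y =>
    intro he
    have hadj : (G ⊕g H).Adj x y := he
    rcases x with x | x <;> rcases y with y | y
    · exact h₁ s(x, y) (sum_adj_inl.1 hadj)
    · exact absurd hadj (by simp)
    · exact absurd hadj (by simp)
    · exact h₂ s(x, y) (sum_adj_inr.1 hadj)

end glue

/-! ### The connected graphs -/

/-- The adjacency relation: `gr` with an infinite path attached to the vertex `20`. -/
def AdjN (v w : ℕ) : Prop :=
  (v < 36 ∧ w < 36 ∧ w ∈ nbT.getD v []) ∨ (v = 20 ∧ w = 36) ∨ (v = 36 ∧ w = 20) ∨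
    (36 ≤ v ∧ w = v + 1) ∨ (36 ≤ w ∧ v = w + 1)

theorem AdjN_symm {v w : ℕ} (h : AdjN v w) : AdjN w v := by
  rcases h with ⟨h1, h2, h3⟩ | h | h | h | h
  · have hh : gr.Adj ⟨v, h1⟩ ⟨w, h2⟩ := h3
    exact Or.inl ⟨h2, h1, hh.symm⟩
  · exact Or.inr (Or.inr (Or.inl ⟨h.2, h.1⟩))
  · exact Or.inr (Or.inl ⟨h.2, h.1⟩)
  · exact Or.inr (Or.inr (Or.inr (Or.inr h)))
  · exact Or.inr (Or.inr (Or.inr (Or.inl h)))

theorem AdjN_irrefl {v : ℕ} (h : AdjN v v) : False := by
  rcases h with ⟨h1, h2, h3⟩ | h | h | h | h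
  · have hh : gr.Adj ⟨v, h1⟩ ⟨v, h1⟩ := h3
    exact hh.ne rfl
  all_goals omega

/-- The graph `gr` with a path attached, on `n` vertices. -/
def big (n : ℕ) : SimpleGraph (Fin n) where
  Adj v w := AdjN v w
  symm := ⟨fun _ _ h => AdjN_symm h⟩
  loopless := ⟨fun _ h => AdjN_irrefl h⟩

/-- The colour of an edge. -/
def colN (v w : ℕ) : ℕ :=
  if max v w < 36 then look colT (min v w) (max v w) else max v w % 2

/-- The colouring. -/
def col (n : ℕ) : Sym2 (Fin n) → ℕ :=
  Sym2.lift ⟨fun v w => colN v w, fun v w => by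
    simp only [colN, min_comm, max_comm]⟩

theorem colN_small {v w : ℕ} (hv : v < 36) (hw : w < 36) :
    colN v w = tab colT s((⟨v, hv⟩ : Fin 36), ⟨w, hw⟩) := by
  rw [tab_mk, colN, if_pos (max_lt hv hw)]
  rcases le_total v w with h | h
  · rw [min_eq_left h, max_eq_right h, min_eq_left (show (⟨v, hv⟩ : Fin 36) ≤ ⟨w, hw⟩ from h),
      max_eq_right (show (⟨v, hv⟩ : Fin 36) ≤ ⟨w, hw⟩ from h)]
  · rw [min_eq_right h, max_eq_left h, min_eq_right (show (⟨w, hw⟩ : Fin 36) ≤ ⟨v, hv⟩ from h),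
      max_eq_left (show (⟨w, hw⟩ : Fin 36) ≤ ⟨v, hv⟩ from h)]

theorem small_cases {v w : ℕ} (hv : v < 36) (h : AdjN v w) :
    (∃ hw : w < 36, gr.Adj ⟨v, hv⟩ ⟨w, hw⟩ ∧
      colN v w = tab colT s((⟨v, hv⟩ : Fin 36), ⟨w, hw⟩)) ∨
      (v = 20 ∧ w = 36 ∧ colN v w = 0) := by
  rcases h with ⟨h1, h2, h3⟩ | h | h | h | h
  · exact Or.inl ⟨h2, h3, colN_small h1 h2⟩
  · refine Or.inr ⟨h.1, h.2, ?_⟩
    rw [h.1, h.2]
    rfl
  all_goals omega

theorem large_cases {v w : ℕ} (hv : 36 ≤ v) (h : AdjN v w) :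
    (w = v + 1 ∧ colN v w = (v + 1) % 2) ∨
      (w = (if v = 36 then 20 else v - 1) ∧ w < v ∧ colN v w = v % 2) := by
  rcases h with ⟨h1, h2, h3⟩ | h | h | h | h
  · omega
  · omega
  · refine Or.inr ⟨?_, by omega, ?_⟩
    · rw [if_pos h.1]; exact h.2
    · rw [h.1, h.2]; rfl
  · refine Or.inl ⟨h.2, ?_⟩
    rw [colN, h.2, max_eq_right (Nat.le_succ v), if_neg (by omega)]
  · refine Or.inr ⟨?_, by omega, ?_⟩
    · rw [if_neg (by omega)]; omega
    · rw [colN, max_eq_left (by omega), if_neg (by omega)]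

theorem zero_free : ∀ w : Fin 36, gr.Adj 20 w → tab colT s(20, w) ≠ 0 := by
  decide

theorem colN_proper {v w w' : ℕ} (h : AdjN v w) (h' : AdjN v w') (hne : w ≠ w') :
    colN v w ≠ colN v w' := by
  rcases lt_or_ge v 36 with hv | hv
  · rcases small_cases hv h with ⟨hw, ha, hc⟩ | ⟨h1, h2, hc⟩ <;>
      rcases small_cases hv h' with ⟨hw', ha', hc'⟩ | ⟨h1', h2', hc'⟩
    · rw [hc, hc']
      exact proper_table _ _ _ ha ha' (fun hh => hne (congrArg Fin.val hh))
    · rw [hc, hc']
      subst h1'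
      exact zero_free _ ha
    · rw [hc, hc']
      subst h1
      exact (zero_free _ ha').symm
    · omega
  · rcases large_cases hv h with ⟨h1, hc⟩ | ⟨h1, h2, hc⟩ <;>
      rcases large_cases hv h' with ⟨h1', hc'⟩ | ⟨h1', h2', hc'⟩
    · omega
    · omega
    · omega
    · exact absurd (h1.trans h1'.symm) hne

/-- The rank function on all vertices. -/
def rankN (rk : List ℕ) (v : ℕ) : ℕ := if v < 36 then rk.getD v 0 else 100 + v

theorem rankN_small (rk : List ℕ) {v : ℕ} (hv : v < 36) : rankN rk v = rk.getD v 0 := if_pos hv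

theorem rankN_large (rk : List ℕ) {v : ℕ} (hv : 36 ≤ v) : rankN rk v = 100 + v :=
  if_neg (by omega)

theorem big_avoid {d : ℕ} {rk : List ℕ} (h : rankOK d rk) (h20 : rk.getD 20 0 < 100) {n : ℕ}
    {v : Fin n} (p : (big n).Walk v v) (hp : p.IsCycle) : ∃ e ∈ p.edges, col n e = d := by
  by_contra hcon
  push Not at hcon
  refine no_cycle_of_rank (fun e => col n e ≠ d) (fun v => rankN rk v.val) ?_ ?_ p hp hcon
  · intro v w hvw hq
    have hvw' : AdjN v.val w.val := hvw
    have hq' : colN v.val w.val ≠ d := hq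
    rcases lt_or_ge v.val 36 with hv | hv
    · rcases small_cases hv hvw' with ⟨hw, ha, hc⟩ | ⟨h1, h2, hc⟩
      · rw [rankN_small rk hv, rankN_small rk hw]
        exact h.1 _ _ ha (by rw [← hc]; exact hq')
      · rw [rankN_small rk hv, h1, rankN_large rk (v := w.val) (by omega)]
        omega
    · rcases large_cases hv hvw' with ⟨h1, hc⟩ | ⟨h1, h2, hc⟩
      · rw [rankN_large rk hv, rankN_large rk (v := w.val) (by omega)]
        omega
      · rw [rankN_large rk hv]
        by_cases h36 : v.val = 36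
        · rw [if_pos h36] at h1
          rw [h1, rankN_small rk (by norm_num)]
          omega
        · rw [if_neg h36] at h1
          rw [rankN_large rk (v := w.val) (by omega)]
          omega
  · intro v w w' hvw hq hvw' hq' hr hr'
    have a1 : AdjN v.val w.val := hvw
    have a2 : AdjN v.val w'.val := hvw'
    have b1 : colN v.val w.val ≠ d := hq
    have b2 : colN v.val w'.val ≠ d := hq'
    apply Fin.ext
    rcases lt_or_ge v.val 36 with hv | hv
    · rcases small_cases hv a1 with ⟨hw, ha, hc⟩ | ⟨h1, h2, hc⟩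
      · rcases small_cases hv a2 with ⟨hw', ha', hc'⟩ | ⟨h1', h2', hc'⟩
        · rw [rankN_small rk hv, rankN_small rk hw] at hr
          rw [rankN_small rk hv, rankN_small rk hw'] at hr'
          have key := h.2 _ _ _ ha (by rw [← hc]; exact b1) hr ha'
            (by rw [← hc']; exact b2) hr'
          have key' := congrArg (fun x : Fin 36 => x.val) key
          exact key'
        · rw [rankN_small rk hv, h1', rankN_large rk (v := w'.val) (by omega)] at hr'
          omega
      · rw [rankN_small rk hv, h1, rankN_large rk (v := w.val) (by omega)] at hr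
        omega
    · rcases large_cases hv a1 with ⟨h1, hc⟩ | ⟨h1, h2, hc⟩
      · rw [rankN_large rk hv, rankN_large rk (v := w.val) (by omega)] at hr
        omega
      · rcases large_cases hv a2 with ⟨h1', hc'⟩ | ⟨h1', h2', hc'⟩
        · rw [rankN_large rk hv, rankN_large rk (v := w'.val) (by omega)] at hr'
          omega
        · rw [h1, h1']

theorem isAcyclic_big (n : ℕ) : IsAcyclicEdgeColouring (big n) (col n) := by
  constructor
  · rintro e he f hf hne ⟨v, hve, hvf⟩
    obtain ⟨w, rfl⟩ := Sym2.mem_iff_exists.1 hve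
    obtain ⟨w', rfl⟩ := Sym2.mem_iff_exists.1 hvf
    refine colN_proper (v := v.val) (w := w.val) (w' := w'.val) he hf ?_
    intro hh
    exact hne (by rw [Fin.ext hh])
  · intro a b v p hp hall
    obtain ⟨e0, he0, h0⟩ := big_avoid rankOK0 (by decide) p hp
    obtain ⟨e1, he1, h1⟩ := big_avoid rankOK1 (by decide) p hp
    obtain ⟨e2, he2, h2⟩ := big_avoid rankOK2 (by decide) p hp
    have g0 := hall e0 he0
    have g1 := hall e1 he1
    have g2 := hall e2 he2
    omega

theorem col_lt (n : ℕ) : ∀ e ∈ (big n).edgeSet, col n e < 3 := by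
  intro e
  induction e using Sym2.ind with
  | _ v w =>
    intro he
    have hadj : AdjN v.val w.val := he
    show colN v.val w.val < 3
    rcases lt_or_ge v.val 36 with hv | hv
    · rcases small_cases hv hadj with ⟨hw, ha, hc⟩ | ⟨h1, h2, hc⟩
      · rw [hc]
        exact colour_lt _ _ ha
      · omega
    · rcases large_cases hv hadj with ⟨h1, hc⟩ | ⟨h1, h2, hc⟩ <;> omega

/-- The inclusion of `gr`. -/
def incl {n : ℕ} (hn : 36 ≤ n) : gr →g big n where
  toFun v := ⟨v.val, lt_of_lt_of_le v.isLt hn⟩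
  map_rel' {v w} h := Or.inl ⟨v.isLt, w.isLt, h⟩

theorem incl_injective {n : ℕ} (hn : 36 ≤ n) : Function.Injective (incl hn) := by
  intro v w h
  have h' := congrArg (fun x : Fin n => x.val) h
  exact Fin.ext h'

/-- Distances from the vertex `0` in `gr`. -/
def bfs : List ℕ := [0, 1, 2, 1, 2, 3, 4, 5, 4, 3, 4, 5, 4, 3, 2, 3, 2, 1, 4, 5, 6, 5, 6, 5, 6, 7, 6,
  7, 6, 5, 3, 4, 3, 4, 3, 2]

theorem bfs_step : ∀ v : Fin 36, v ≠ 0 → ∃ w : Fin 36, gr.Adj v w ∧
    bfs.getD w.val 0 < bfs.getD v.val 0 := by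
  decide

theorem bfs_lt : bfs.getD 20 0 < 100 := by decide

theorem reach {n : ℕ} (hn : 36 ≤ n) : ∀ (k : ℕ) (v : Fin n), rankN bfs v.val = k →
    (big n).Reachable v ⟨0, by omega⟩ := by
  intro k
  induction k using Nat.strong_induction_on with
  | _ k ih =>
    intro v hk
    rcases lt_or_ge v.val 36 with hv | hv
    · by_cases h0 : v.val = 0
      · have : v = ⟨0, by omega⟩ := Fin.ext h0
        rw [this]
      · obtain ⟨w, hw, hlt⟩ := bfs_step ⟨v.val, hv⟩ (fun h => h0 (congrArg Fin.val h))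
        have hadj : (big n).Adj v ⟨w.val, lt_of_lt_of_le w.isLt hn⟩ := Or.inl ⟨hv, w.isLt, hw⟩
        refine hadj.reachable.trans (ih _ ?_ _ rfl)
        rw [← hk, rankN_small bfs hv]
        show rankN bfs w.val < _
        rw [rankN_small bfs w.isLt]
        exact hlt
    · by_cases h36 : v.val = 36
      · have hadj : (big n).Adj v ⟨20, by omega⟩ := Or.inr (Or.inr (Or.inl ⟨h36, rfl⟩))
        refine hadj.reachable.trans (ih _ ?_ _ rfl)
        rw [← hk, rankN_large bfs hv]
        show rankN bfs 20 < _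
        rw [rankN_small bfs (by norm_num)]
        have := bfs_lt
        omega
      · have hadj : (big n).Adj v ⟨v.val - 1, by omega⟩ :=
          Or.inr (Or.inr (Or.inr (Or.inr ⟨by show 36 ≤ v.val - 1; omega, by
            show v.val = v.val - 1 + 1; omega⟩)))
        refine hadj.reachable.trans (ih _ ?_ _ rfl)
        rw [← hk, rankN_large bfs hv]
        show rankN bfs (v.val - 1) < _
        rw [rankN_large bfs (by omega)]
        omega

theorem connected_big {n : ℕ} (hn : 36 ≤ n) : (big n).Connected := by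
  rw [connected_iff_exists_forall_reachable]
  exact ⟨⟨0, by omega⟩, fun w => (reach hn _ w rfl).symm⟩

theorem nb_length : ∀ v : Fin 36, (nbT.getD v.val [] ++ if v.val = 20 then [36] else []).length ≤ 3 := by
  decide

theorem nb_list (v : ℕ) : ∃ l : List ℕ, l.length ≤ 3 ∧ ∀ w, AdjN v w → w ∈ l := by
  rcases lt_or_ge v 36 with hv | hv
  · refine ⟨_, nb_length ⟨v, hv⟩, fun w hw => ?_⟩
    rcases small_cases hv hw with ⟨hw', ha, -⟩ | ⟨h1, h2, -⟩
    · exact List.mem_append_left _ ha
    · refine List.mem_append_right _ ?_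
      rw [if_pos h1, h2]
      exact List.mem_singleton.2 rfl
  · refine ⟨[v + 1, if v = 36 then 20 else v - 1], by simp, fun w hw => ?_⟩
    rcases large_cases hv hw with ⟨h1, -⟩ | ⟨h1, -, -⟩
    · rw [h1]; simp
    · rw [← h1]; simp

theorem degree_big (n : ℕ) (v : Fin n) : ((big n).neighborSet v).ncard ≤ 3 := by
  obtain ⟨l, hl, h⟩ := nb_list v.val
  have h1 : (Fin.val '' (big n).neighborSet v) ⊆ (l.toFinset : Set ℕ) := by
    rintro _ ⟨w, hw, rfl⟩
    rw [Finset.mem_coe, List.mem_toFinset]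
    exact h w.val hw
  calc ((big n).neighborSet v).ncard = (Fin.val '' (big n).neighborSet v).ncard :=
        (Set.ncard_image_of_injective _ Fin.val_injective).symm
    _ ≤ (l.toFinset : Set ℕ).ncard := Set.ncard_le_ncard h1 (Finset.finite_toSet _)
    _ = l.toFinset.card := Set.ncard_coe_finset _
    _ ≤ l.length := List.toFinset_card_le l
    _ ≤ 3 := hl

/-- **Main theorem.** There is a graph `G₀` with 36 vertices and acyclic chromatic index `3` such
that every finite graph containing `G₀` as a subgraph has acyclic list chromatic index at least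
`4`. For every `n ≥ 36` there is a connected graph with `n` vertices and all degrees at most `3`
with acyclic chromatic index `3` and acyclic list chromatic index at least `4`. For every finite
graph `H` with acyclic chromatic index at most `3`, the disjoint union of `G₀` and `H` has acyclic
chromatic index `3` and acyclic list chromatic index at least `4`. -/
theorem result : ∃ G₀ : SimpleGraph (Fin 36),
    acyclicChromaticIndex G₀ = 3 ∧
    (∀ (V : Type) [Finite V] (G : SimpleGraph V) (f : G₀ →g G), Function.Injective f →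
      4 ≤ acyclicListChromaticIndex G) ∧
    (∀ n, 36 ≤ n → ∃ G : SimpleGraph (Fin n), G.Connected ∧ (∀ v, (G.neighborSet v).ncard ≤ 3) ∧
      acyclicChromaticIndex G = 3 ∧ 4 ≤ acyclicListChromaticIndex G) ∧
    (∀ (V : Type) [Finite V] (H : SimpleGraph V), acyclicChromaticIndex H ≤ 3 →
      acyclicChromaticIndex (G₀ ⊕g H) = 3 ∧ 4 ≤ acyclicListChromaticIndex (G₀ ⊕g H)) := by
  refine ⟨gr, acyclicChromaticIndex_gr, fun V _ G f hf =>
    four_le_acyclicListChromaticIndex_gr.trans (list_mono f hf), fun n hn =>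
    ⟨big n, connected_big hn, degree_big n,
      gap_of (incl hn) (incl_injective hn) ⟨col n, isAcyclic_big n, col_lt n⟩⟩, ?_⟩
  intro V _ H hH
  refine gap_of (Embedding.sumInl (G := gr) (H := H)).toHom
    (Embedding.sumInl (G := gr) (H := H)).injective ?_
  obtain ⟨c, hc, hlt⟩ := Nat.sInf_mem (chrom_nonempty H)
  refine ⟨sumCol (tab colT) c, isAcyclic_sum isAcyclic_tab hc, sumCol_lt ?_ ?_⟩
  · intro e
    induction e using Sym2.ind with
    | _ v w => exact fun he => colour_lt v w he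
  · exact fun e he => lt_of_lt_of_le (hlt e he) hH

end Pool.Agent.Results.MP_b17c1b_co.ConnectedEveryOrder
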